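import Mathlib
import Pool.Agent.Run7.h289.D16.QB
import Pool.Agent.Run7.h289.D16.QC
import Pool.Agent.N916.GB.Num

/-!
# The curves with `ℚ(E[2]) = ℚ(E'[2]) = ℚ(√q)`: rank zero and the 2-primary part of Sha

Let `q` be a prime number `5` modulo `8`. An elliptic curve over `ℚ` with a rational point of order
two is `y² = x³ + A x² + B x`, the 2-isogenous curve is `E' : y² = x³ - 2 A x² + (A² - 4 B) x`, and
`ℚ(E[2]) = ℚ(√(A² - 4 B))`, `ℚ(E'[2]) = ℚ(√B)`. We treat the curves for which both fields are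
`ℚ(√q)` (the case `ℚ(E[2]) = ℚ(E'[2])` is excluded in Smith's theorems on 2-power Selmer groups in
quadratic twist families); they have no complex multiplication.

A triple is `t = (α, β, γ)`, odd integers with `q α² = 4 β² + γ²`, `α > 0`, `β, γ` coprime, and
`E_t^m : y² = x³ + q α m x² + q β² m² x`, `E_t'^m : y² = x³ - 2 q α m x² + q γ² m² x`.

1. These are all the curves: `y² = x³ + A x² + B x` with `B = q s²`, `A² - 4 B = q t²`, `s, t ≠ 0`
   rational, is the quadratic twist by some `c ≠ 0` of `E_t` or `E_t'` for some triple `t`.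
2. The j-invariants, as fractions in lowest terms.
3. The squarefree number `m > 0` is admissible for `t` if it is prime to `2 q`, `α m` is not a square
   modulo the primes of `β`, `- 2 α m` is not a square modulo the primes of `γ`, and `q α m` is not
   `7` modulo `8`. Then each of the two curves `E_t^m`, `E_t'^m` has finitely many rational points
   and `Ш[2^∞] = 0` if and only if the determinant of the matrix `M` over `𝔽₂` is not `0`. The rows
   and columns of `M` are the primes `p ∣ m` modulo which `q` is a square; for `p ≠ l` the entry is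
   `1` if `l` is not a square modulo `p`, else `0`; the entry at `p` is the number of the primes
   `l ∣ m` which are not squares modulo `p`, plus `1` if `q α + 2 β √q` is not a square modulo `p`.
4. Let `I` be a nonempty finite set of triples for which the fields `ℚ(√(q α + 2 β √q))` are equal
   (the numbers `q α + 2 β √q` differ by squares of `ℚ(√q)`), and consider the `m` admissible for all
   triples of `I`, also those in a class `b` modulo `N` prime to `N`, provided that there is one. They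
   have positive lower density; for exactly the proportion `η = ∏ (1 - 2^{-i}) = 0.2888...` of them
   all the curves `E_t^m`, `E_t'^m`, `t ∈ I`, have finitely many rational points and `Ш[2^∞] = 0`;
   for exactly the proportion `1 - η` none of them has.
5. Each triple belongs to an infinite sequence of such triples, any finite set of which has
   admissible `m` in common, and for any two members of the sequence a prime divides the
   denominator of the one j-invariant of `E_t` but not that of the other.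
-/

set_option autoImplicit false

open Filter Topology

namespace Pool.Agent.Results.MP_4a9ea6_nt.EqualTwoDivisionFields

/-- the curve `y² = x³ + a x² + b x` over `ℚ` -/
def C (a b : ℚ) : WeierstrassCurve ℚ := { a₁ := 0, a₂ := a, a₃ := 0, a₄ := b, a₆ := 0 }

/-- the triples `t = (α, β, γ)` -/
structure Triple (q : ℕ) (t : ℤ × ℤ × ℤ) : Prop where
  rel : (q : ℤ) * t.1 ^ 2 = 4 * t.2.1 ^ 2 + t.2.2 ^ 2
  odd : Odd t.1 ∧ Odd t.2.1 ∧ Odd t.2.2
  pos : 0 < t.1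
  coprime : IsCoprime t.2.1 t.2.2

/-- `E_t^m` -/
def E (q : ℕ) (t : ℤ × ℤ × ℤ) (m : ℕ) : WeierstrassCurve ℚ :=
  C (q * t.1 * m) (q * (t.2.1 : ℚ) ^ 2 * (m : ℚ) ^ 2)

/-- `E_t'^m` -/
def E' (q : ℕ) (t : ℤ × ℤ × ℤ) (m : ℕ) : WeierstrassCurve ℚ :=
  C (-2 * q * t.1 * m) (q * (t.2.2 : ℚ) ^ 2 * (m : ℚ) ^ 2)

/-- `m` is admissible for `t` -/
structure Admissible (q : ℕ) (t : ℤ × ℤ × ℤ) (m : ℕ) : Prop where
  squarefree : Squarefree m
  odd : Odd m
  notDvd : ¬ q ∣ m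
  atBeta : ∀ p : ℕ, p.Prime → (p : ℤ) ∣ t.2.1 → ¬ IsSquare ((t.1 * m : ℤ) : ZMod p)
  atGamma : ∀ p : ℕ, p.Prime → (p : ℤ) ∣ t.2.2 → ¬ IsSquare ((-(2 * t.1 * m) : ℤ) : ZMod p)
  atTwo : ((q : ℤ) * t.1 * m) % 8 ≠ 7

/-- `W(ℚ)` is finite and `Ш(W/ℚ)[2^∞] = 0` -/
structure Trivial (W : WeierstrassCurve ℚ) : Prop where
  finite : Finite W.toAffine.Point
  sha : ∀ (n : ℕ) (x : Pool.Agent.TH841.NF.D.Sha W), 2 ^ n • x = 0 → x = 0

/-- the prime divisors of `m` modulo which `q` is a square -/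
noncomputable def S (q m : ℕ) : Finset ℕ :=
  @Finset.filter ℕ (fun p : ℕ => IsSquare (q : ZMod p)) (Classical.decPred _) m.primeFactors

open Classical in
/-- `1` if `l` is not a square modulo `p`, else `0` -/
noncomputable def nr (p l : ℕ) : ZMod 2 := if IsSquare (l : ZMod p) then 0 else 1

open Classical in
/-- `0` if `q α + 2 β √q` is a square modulo `p`, else `1` -/
noncomputable def f (q : ℕ) (t : ℤ × ℤ × ℤ) (p : ℕ) : ZMod 2 :=
  if ∃ r s : ZMod p, r ^ 2 = q ∧ s ^ 2 = (q : ZMod p) * (t.1 : ZMod p) + 2 * (t.2.1 : ZMod p) * r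
  then 0 else 1

/-- the matrix -/
noncomputable def M (q : ℕ) (t : ℤ × ℤ × ℤ) (m : ℕ) : Matrix (S q m) (S q m) (ZMod 2) :=
  fun p l => if p = l then ∑ r ∈ m.primeFactors, nr p r + f q t p else nr p l

/-- `q α' + 2 β' √q = (q α + 2 β √q) (u + v √q)²` for some rational `u`, `v` -/
def SameField (q : ℕ) (t t' : ℤ × ℤ × ℤ) : Prop := ∃ u v : ℚ,
  (t'.1 : ℚ) = t.1 * (u ^ 2 + q * v ^ 2) + 4 * t.2.1 * u * v ∧
  (t'.2.1 : ℚ) = t.2.1 * (u ^ 2 + q * v ^ 2) + q * t.1 * u * v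

/-- `m` is admissible for all the triples in `I` -/
def Common (q : ℕ) (I : Finset (ℤ × ℤ × ℤ)) (m : ℕ) : Prop := ∀ t ∈ I, Admissible q t m

/-- the number of the `m ≤ X` in the class `K` with the property `Q` -/
noncomputable def num (K Q : ℕ → Prop) (X : ℕ) : ℕ := Nat.card {m : ℕ // m ≤ X ∧ K m ∧ Q m}

/-- among the numbers of the class `K` exactly the proportion `θ` has the property `Q` -/
def Proportion (K Q : ℕ → Prop) (θ : ℝ) : Prop :=
  Tendsto (fun X : ℕ => (num K Q X : ℝ) / (num K (fun _ => True) X : ℝ)) atTop (𝓝 θ)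

/-- the constant `0.2888...` -/
noncomputable def η : ℝ := ∏' i : ℕ, (1 - (1 / 2 : ℝ) ^ (i + 1))

section proof

open Pool.Agent.Run7.h289.D16 (Dat Good Adm Com Gd fq Same)

variable {q : ℕ}

theorem good_iff (hq : q.Prime) (h8 : q % 8 = 5) {t : ℤ × ℤ × ℤ} : Triple q t ↔ Good q t := by
  constructor
  · rintro ⟨h1, ⟨h2, h3, h4⟩, h5, h6⟩
    exact ⟨⟨hq, h8, h1, Int.odd_iff.1 h2, Int.odd_iff.1 h3, Int.odd_iff.1 h4, h6⟩, h5⟩
  · rintro ⟨⟨-, -, h1, h2, h3, h4, h6⟩, h5⟩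
    exact ⟨h1, ⟨Int.odd_iff.2 h2, Int.odd_iff.2 h3, Int.odd_iff.2 h4⟩, h5, h6⟩

theorem adm_iff {t : ℤ × ℤ × ℤ} (h : Good q t) {m : ℕ} :
    Admissible q t m ↔ Adm q t.1 t.2.1 t.2.2 m := by
  constructor
  · rintro ⟨h1, h2, h3, h4, h5, h6⟩
    refine ⟨h1, Nat.odd_iff.1 h2, h3, fun l hl hd => ?_, fun l hl hd => ?_, h6⟩
    · rw [Pool.Agent.Run7.h289.D16.cond_b h hl hd]
      exact h4 l hl hd
    · rw [Pool.Agent.Run7.h289.D16.cond_g h hl hd]
      exact h5 l hl hd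
  · rintro ⟨h1, h2, h3, h4, h5, h6⟩
    refine ⟨h1, Nat.odd_iff.2 h2, h3, fun l hl hd => ?_, fun l hl hd => ?_, h6⟩
    · rw [← Pool.Agent.Run7.h289.D16.cond_b h hl hd]
      exact h4 l hl hd
    · rw [← Pool.Agent.Run7.h289.D16.cond_g h hl hd]
      exact h5 l hl hd

theorem com_iff {I : Finset (ℤ × ℤ × ℤ)} (hI : I.Nonempty) (hg : ∀ t ∈ I, Good q t) {m : ℕ} :
    Common q I m ↔ Squarefree m ∧ Com q I m := by
  constructor
  · intro h
    obtain ⟨t0, ht0⟩ := hI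
    have h0 := (adm_iff (hg t0 ht0)).1 (h t0 ht0)
    refine ⟨h0.sqf, h0.odd, h0.nq, fun t ht => ?_⟩
    have h1 := (adm_iff (hg t ht)).1 (h t ht)
    exact ⟨fun l hl => ⟨h1.nb l hl, h1.ng l hl⟩, h1.h7⟩
  · rintro ⟨h1, h2⟩ t ht
    exact (adm_iff (hg t ht)).2 (Pool.Agent.Run7.h289.D16.adm_of h1 h2 ht)

theorem M_eq (t : ℤ × ℤ × ℤ) (m : ℕ) :
    M q t m = Pool.Agent.Run7.h289.D16.Mat q (fq q t.1 t.2.1) m := by
  refine Matrix.ext fun p l => ?_
  show (if p = l then ∑ r ∈ m.primeFactors, Pool.Agent.Y703.CQ.nr p r + fq q t.1 t.2.1 p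
    else Pool.Agent.Y703.CQ.nr p l) = Pool.Agent.Y703.CQ.nr p l +
      if p = l then ∑ r ∈ m.primeFactors, Pool.Agent.Y703.CQ.nr p r + fq q t.1 t.2.1 p else 0
  by_cases h : p = l
  · rw [if_pos h, if_pos h, ← h, Run7.h843.Desc.nr_self, zero_add]
  · rw [if_neg h, if_neg h, add_zero]

theorem key {t : ℤ × ℤ × ℤ} (h : Good q t) {m : ℕ} (hm : Adm q t.1 t.2.1 t.2.2 m) :
    (Trivial (E q t m) ↔ Gd q (fq q t.1 t.2.1) m.primeFactors) ∧
    (Trivial (E' q t m) ↔ Gd q (fq q t.1 t.2.1) m.primeFactors) := by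
  constructor
  · refine Iff.trans ?_ (Pool.Agent.Run7.h289.D16.iff16 (W := E q t m) h.1 h.2 hm (by
      unfold E C
      push_cast
      rfl))
    exact ⟨fun h => ⟨h.finite, h.sha⟩, fun h => ⟨h.1, h.2⟩⟩
  · refine Iff.trans ?_ (Pool.Agent.Run7.h289.D16.iff16' (W := E' q t m) h.1 h.2 hm (by
      unfold E' C
      push_cast
      congr 1
      ring))
    exact ⟨fun h => ⟨h.finite, h.sha⟩, fun h => ⟨h.1, h.2⟩⟩

open Classical in
theorem num_eq {C C' Q Q' : ℕ → Prop} (h0 : ∀ m, C m → m ≠ 0) (hC : ∀ m, C m ↔ C' m)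
    (h : ∀ m, C m → (Q m ↔ Q' m)) (X : ℕ) :
    num C Q X = ((Finset.Icc 1 X).filter fun m => C' m ∧ Q' m).card := by
  unfold num
  refine Nat.subtype_card _ fun m => ?_
  rw [Finset.mem_filter, Finset.mem_Icc]
  constructor
  · rintro ⟨⟨-, h2⟩, h3, h4⟩
    have hc := (hC m).2 h3
    exact ⟨h2, hc, (h m hc).2 h4⟩
  · rintro ⟨h2, hc, h5⟩
    exact ⟨⟨Nat.one_le_iff_ne_zero.2 (h0 m hc), h2⟩, (hC m).1 hc, (h m hc).1 h5⟩

open Classical in
/-- transport of a proportion -/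
theorem prop_of {C C' Q Q' : ℕ → Prop} {θ : ℝ} (h0 : ∀ m, C m → m ≠ 0) (hC : ∀ m, C m ↔ C' m)
    (h : ∀ m, C m → (Q m ↔ Q' m)) (ht : Tendsto (fun X : ℕ =>
      (((Finset.Icc 1 X).filter fun m => C' m ∧ Q' m).card : ℝ) /
        (((Finset.Icc 1 X).filter fun m => C' m).card : ℝ)) atTop (𝓝 θ)) : Proportion C Q θ := by
  refine ht.congr fun X => ?_
  rw [num_eq h0 hC h X, num_eq (Q' := fun _ => True) h0 hC (fun _ _ => Iff.rfl) X]
  simp only [and_true]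

open Classical in
/-- the complementary proportion -/
theorem prop_compl {C Q Q' : ℕ → Prop} {θ : ℝ} (h0 : ∀ m, C m → m ≠ 0)
    (h : ∀ m, C m → (Q' m ↔ ¬ Q m)) (hl : ∃ a : ℝ, 0 < a ∧ ∀ᶠ X : ℕ in atTop,
      a * X ≤ (num C (fun _ => True) X : ℝ)) (hq : Proportion C Q θ) : Proportion C Q' (1 - θ) := by
  obtain ⟨a, ha, hX⟩ := hl
  refine (hq.const_sub 1).congr' ?_
  filter_upwards [hX, eventually_ge_atTop 1] with X h1 h2
  have hpos : (0 : ℝ) < num C (fun _ => True) X := by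
    refine lt_of_lt_of_le ?_ h1
    have : (0 : ℝ) < X := by exact_mod_cast h2
    positivity
  have e : num C Q X + num C Q' X = num C (fun _ => True) X := by
    rw [num_eq (Q' := Q) h0 (fun _ => Iff.rfl) (fun _ _ => Iff.rfl),
      num_eq (Q' := fun m => ¬ Q m) h0 (fun _ => Iff.rfl) h,
      num_eq (Q' := fun _ => True) h0 (fun _ => Iff.rfl) (fun _ _ => Iff.rfl)]
    simp only [and_true]
    have h5 := Finset.card_filter_add_card_filter_not (s := (Finset.Icc 1 X).filter C) Q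
    rw [Finset.filter_filter, Finset.filter_filter] at h5
    convert h5
  have e' : (num C Q X : ℝ) + num C Q' X = num C (fun _ => True) X := by exact_mod_cast e
  rw [eq_div_iff hpos.ne', sub_mul, div_mul_cancel₀ _ hpos.ne', one_mul]
  linarith

theorem prop_main (hq : q.Prime) (h8 : q % 8 = 5) {I : Finset (ℤ × ℤ × ℤ)} (hI : I.Nonempty)
    {τ : ℤ × ℤ × ℤ} (hτ : Triple q τ) (hP : ∀ t ∈ I, Triple q t ∧ SameField q τ t) {N b : ℕ}
    (hN : 0 < N) (hbc : b.Coprime N) (hex : ∃ m, Common q I m ∧ m % N = b) :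
    Proportion (fun m => Common q I m ∧ m % N = b)
      (fun m => ∀ t ∈ I, Trivial (E q t m) ∧ Trivial (E' q t m)) η ∧
    Proportion (fun m => Common q I m ∧ m % N = b)
      (fun m => ∀ t ∈ I, ¬ Trivial (E q t m) ∧ ¬ Trivial (E' q t m)) (1 - η) ∧
    ∃ a : ℝ, 0 < a ∧ ∀ᶠ X : ℕ in atTop,
      a * X ≤ (num (fun m => Common q I m ∧ m % N = b) (fun _ => True) X : ℝ) := by
  have hg : ∀ t ∈ I, Good q t := fun t ht => (good_iff hq h8).1 (hP t ht).1
  have hgτ := (good_iff hq h8).1 hτ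
  obtain ⟨m0, hm0, hb0⟩ := hex
  have h0 : Com q I m0 ∧ m0 % N = b := ⟨((com_iff hI hg).1 hm0).2, hb0⟩
  have hI' := hI
  obtain ⟨t0, ht0⟩ := hI'
  have hne : ∀ m, (Common q I m ∧ m % N = b) → m ≠ 0 :=
    fun m h => (h.1 t0 ht0).squarefree.ne_zero
  have hC : ∀ m, (Common q I m ∧ m % N = b) ↔ (Squarefree m ∧ Com q I m ∧ m % N = b) := fun m => by
    rw [com_iff hI hg, and_assoc]
  have hk : ∀ m, (Common q I m ∧ m % N = b) → ∀ t ∈ I,
      (Trivial (E q t m) ↔ Gd q (fq q t0.1 t0.2.1) m.primeFactors) ∧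
      (Trivial (E' q t m) ↔ Gd q (fq q t0.1 t0.2.1) m.primeFactors) := by
    intro m hm t ht
    have a1 := (adm_iff (hg t ht)).1 (hm.1 t ht)
    have a0 := (adm_iff (hg t0 ht0)).1 (hm.1 t0 ht0)
    obtain ⟨k1, k2⟩ := key (hg t ht) a1
    have hS : Same q t0 t := Pool.Agent.Run7.h289.D16.same_trans hgτ (hg t0 ht0) (hP t0 ht0).2
      (hP t ht).2
    have k3 := Pool.Agent.Run7.h289.D16.Gd_same (hg t0 ht0).1 (hg t ht).1 hS a0 a1
    exact ⟨k1.trans k3, k2.trans k3⟩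
  have h1 : Proportion (fun m => Common q I m ∧ m % N = b)
      (fun m => ∀ t ∈ I, Trivial (E q t m) ∧ Trivial (E' q t m)) η := by
    refine prop_of hne hC (fun m hm => ⟨fun h => (hk m hm t0 ht0).1.1 (h t0 ht0).1,
      fun h t ht => ⟨(hk m hm t ht).1.2 h, (hk m hm t ht).2.2 h⟩⟩) ?_
    refine (Pool.Agent.Run7.h289.D16.dens_joint hq h8 hg hN hbc h0
      (fq q t0.1 t0.2.1)).congr fun X => ?_
    congr 3 <;> ext n <;> simp only [Finset.mem_filter, and_assoc]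
  have h2 : ∃ a : ℝ, 0 < a ∧ ∀ᶠ X : ℕ in atTop,
      a * X ≤ (num (fun m => Common q I m ∧ m % N = b) (fun _ => True) X : ℝ) := by
    obtain ⟨a, ha, h⟩ := Pool.Agent.Run7.h289.D16.low_joint hq hg hN hbc h0
    refine ⟨a, ha, h.mono fun X hX => hX.trans ?_⟩
    rw [num_eq (Q' := fun _ => True) hne hC (fun _ _ => Iff.rfl) X]
    refine Nat.cast_le.2 (Finset.card_le_card fun n hn => ?_)
    simp only [Finset.mem_filter, and_true] at hn ⊢
    exact hn
  refine ⟨h1, prop_compl hne (fun m hm => ?_) h2 h1, h2⟩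
  constructor
  · intro h h'
    exact (h t0 ht0).1 (h' t0 ht0).1
  · intro h t ht
    have hn : ¬ Gd q (fq q t0.1 t0.2.1) m.primeFactors := fun hgd =>
      h fun t' ht' => ⟨(hk m hm t' ht').1.2 hgd, (hk m hm t' ht').2.2 hgd⟩
    exact ⟨fun h' => hn ((hk m hm t ht).1.1 h'), fun h' => hn ((hk m hm t ht).2.1 h')⟩

end proof

/-- **The curves with `ℚ(E[2]) = ℚ(E'[2]) = ℚ(√q)`: rank zero and the 2-primary part of Sha.** -/
theorem result (q : ℕ) (hq : q.Prime) (h8 : q % 8 = 5) :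
    -- the classification
    (∀ A B s r : ℚ, s ≠ 0 → r ≠ 0 → B = q * s ^ 2 → A ^ 2 - 4 * B = q * r ^ 2 →
      ∃ (t : ℤ × ℤ × ℤ) (c : ℚ), Triple q t ∧ c ≠ 0 ∧
        ((A = c * (q * t.1) ∧ B = c ^ 2 * (q * (t.2.1 : ℚ) ^ 2)) ∨
          (A = c * (-2 * (q * t.1)) ∧ B = c ^ 2 * (q * (t.2.2 : ℚ) ^ 2)))) ∧
    -- the j-invariants
    (∀ (t : ℤ × ℤ × ℤ) (m : ℕ), Triple q t → m ≠ 0 →
      ((E q t m).Δ ≠ 0 ∧ (E q t m).c₄ ^ 3 / (E q t m).Δ =
        ((256 * (t.2.1 ^ 2 + t.2.2 ^ 2) ^ 3 : ℤ) : ℚ) / ((t.2.1 ^ 4 * t.2.2 ^ 2 : ℤ) : ℚ) ∧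
      (E' q t m).Δ ≠ 0 ∧ (E' q t m).c₄ ^ 3 / (E' q t m).Δ =
        ((16 * (16 * t.2.1 ^ 2 + t.2.2 ^ 2) ^ 3 : ℤ) : ℚ) / ((t.2.1 ^ 2 * t.2.2 ^ 4 : ℤ) : ℚ)) ∧
      IsCoprime (256 * (t.2.1 ^ 2 + t.2.2 ^ 2) ^ 3) (t.2.1 ^ 4 * t.2.2 ^ 2) ∧
      IsCoprime (16 * (16 * t.2.1 ^ 2 + t.2.2 ^ 2) ^ 3) (t.2.1 ^ 2 * t.2.2 ^ 4)) ∧
    -- the criterion
    (∀ (t : ℤ × ℤ × ℤ) (m : ℕ), Triple q t → Admissible q t m →
      (Trivial (E q t m) ↔ (M q t m).det ≠ 0) ∧ (Trivial (E' q t m) ↔ (M q t m).det ≠ 0)) ∧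
    -- finite sets of curves
    (∀ (I : Finset (ℤ × ℤ × ℤ)) (τ : ℤ × ℤ × ℤ), I.Nonempty → Triple q τ →
      (∀ t ∈ I, Triple q t ∧ SameField q τ t) → ∀ N b : ℕ, 0 < N → b.Coprime N →
      (∃ m, Common q I m ∧ m % N = b) →
      Proportion (fun m => Common q I m ∧ m % N = b)
        (fun m => ∀ t ∈ I, Trivial (E q t m) ∧ Trivial (E' q t m)) η ∧
      Proportion (fun m => Common q I m ∧ m % N = b)
        (fun m => ∀ t ∈ I, ¬ Trivial (E q t m) ∧ ¬ Trivial (E' q t m)) (1 - η) ∧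
      ∃ a : ℝ, 0 < a ∧ ∀ᶠ X : ℕ in atTop,
        a * X ≤ (num (fun m => Common q I m ∧ m % N = b) (fun _ => True) X : ℝ)) ∧
    -- existence
    (∀ τ : ℤ × ℤ × ℤ, Triple q τ → ∃ w : ℕ → ℤ × ℤ × ℤ,
      (∀ i, Triple q (w i) ∧ SameField q τ (w i)) ∧
      (Pairwise fun i j => ∃ p : ℕ, p.Prime ∧ (p : ℤ) ∣ (w i).2.2 ∧
        ¬ (p : ℤ) ∣ (w j).2.1 * (w j).2.2) ∧
      ∀ I : Finset (ℤ × ℤ × ℤ), (∀ x ∈ I, x = τ ∨ ∃ i, x = w i) → ∃ m, Common q I m) ∧
    0.2887 < η ∧ η < 0.2889 := by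
  refine ⟨?_, ?_, ?_, fun I τ hI hτ hP N b hN hbc hex => prop_main hq h8 hI hτ hP hN hbc hex, ?_,
    Pool.Agent.N916.GB.eta_bounds.1, Pool.Agent.N916.GB.eta_bounds.2⟩
  · intro A B s r hs hr hB hA
    obtain ⟨α, β, γ, c, h1, h2, h3, h4⟩ :=
      Pool.Agent.Run7.h289.D16.classify hq h8 hs hr hB hA
    exact ⟨(α, β, γ), c, (good_iff hq h8).2 ⟨h1, h2⟩, h3, h4⟩
  · intro t m ht hm
    have hg := (good_iff hq h8).1 ht
    have hm' : (m : ℚ) ≠ 0 := by exact_mod_cast hm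
    exact ⟨Pool.Agent.Run7.h289.D16.j_eq hg hm' rfl rfl, Pool.Agent.Run7.h289.D16.cop_j hg⟩
  · intro t m ht hm
    have hg := (good_iff hq h8).1 ht
    obtain ⟨k1, k2⟩ := key hg ((adm_iff hg).1 hm)
    rw [M_eq]
    exact ⟨k1.trans (Pool.Agent.Run7.h289.D16.Gd_iff q _ m),
      k2.trans (Pool.Agent.Run7.h289.D16.Gd_iff q _ m)⟩
  · intro τ hτ
    have hg := (good_iff hq h8).1 hτ
    obtain ⟨w, hw, hr⟩ := Pool.Agent.Run7.h289.D16.exists_seq hg
    have hgw : ∀ i, Pool.Agent.Run7.h289.D16.Good q (w i) := by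
      intro i
      obtain ⟨v, -, hv, e⟩ := hw i
      rw [e]
      exact Pool.Agent.Run7.h289.D16.fam_good hg hv
    refine ⟨w, fun i => ⟨(good_iff hq h8).2 (hgw i), ?_⟩, fun i j hij => ?_, fun I hI => ?_⟩
    · obtain ⟨v, -, hv, e⟩ := hw i
      rw [e]
      exact Pool.Agent.Run7.h289.D16.fam_same q τ v
    · obtain ⟨v, hv0, hv, e⟩ := hw i
      obtain ⟨p, hp, h1, h2⟩ := Pool.Agent.Run7.h289.D16.fam_new hg hv hv0
      rw [← e] at h1
      exact ⟨p, hp, h1, fun h3 => h2 (hr hij p hp (h1.mul_left _) h3)⟩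
    · obtain ⟨m, h1, h2⟩ := Pool.Agent.Run7.h289.D16.exists_com_seq hg hw hr hI
      refine ⟨m, fun t ht => ?_⟩
      have hgt : Pool.Agent.Run7.h289.D16.Good q t := by
        rcases hI t ht with rfl | ⟨i, rfl⟩
        · exact hg
        · exact hgw i
      exact (adm_iff hgt).2 (Pool.Agent.Run7.h289.D16.adm_of h1 h2 ht)

end Pool.Agent.Results.MP_4a9ea6_nt.EqualTwoDivisionFields
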