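import Pool.Agent.Run7.h555.Kept.TwoPartQuarticTwists
import Pool.Agent.Run7.h843.Kept.ShaSumsOfTwoOddSquares_MP_e23604_nt
import Pool.Agent.Run7.h268.FN.Cong

/-!
# The 2-part of the strong Birch and Swinnerton-Dyer conjecture for the quartic twists `y² = x³ + N x`
# and the congruent number curves, `N` with a fixed number of prime factors from a given set

Let `N = 2 m`, where `m` is squarefree and all its prime factors are `1` modulo `4`.
`C_N : y² = x³ + N x` is a quartic twist and `E_N : y² = x³ - N² x` a quadratic twist of `y² = x³ - x`.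
For `z = #C_N(ℚ)_tors² L(C_N, 1) / (Ω ∏ c_p)` the 2-part of the formula, with `z` a unit at two, is:
`L(C_N, 1) ≠ 0`, `C_N(ℚ)` is finite, `Ш(C_N/ℚ)[2^∞] = 0`, and `z`, `1 / z` are integral at the primes
above two. By the results of the team it holds if and only if `L(E_N, s)` is entire and not zero at `1`,
`E_N(ℚ)` is finite and `Ш(E_N/ℚ)[2^∞] = 0`, and if and only if an elementary criterion holds; the
exact proportion `0.4194...` is known for the values `u² + v²` (by the team).

Here the number of the prime factors of `m` is fixed, and they are taken from an arbitrary set `S` of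
primes. Let `P n = ∏_{i < (n+1)/2} (1 - 2^{-(2i+1)})`, the proportion of the invertible matrices among
the symmetric `n` times `n` matrices over the field with two elements.

Theorem. Let `b + r ≥ 1`, and suppose that `S` contains at least a positive proportion of all the primes
up to `Y` in the class `1` modulo `8` (if `b > 0`) and in the class `5` modulo `8` (if `r > 0`), for
all large `Y`. Then the number of the `m ≤ X` with exactly `b` prime factors `1` modulo `8` and `r`
prime factors `5` modulo `8`, all in `S`, has the order of magnitude `X (log log X)^(b+r-1) / log X`,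
and exactly the proportion `P (b+r-1)` if `r` is odd, `P (b+r-2)` if `r > 0` is even, and `0` if
`r = 0` of them satisfies the conditions above for both curves.

The proof. The matrix of the criterion is symmetric with row sums `0` at the primes `1` and `1` at
the primes `5` modulo `8`. Almost all the `m` have only large prime factors; the large sieve for the
quadratic symbols gives the equidistribution of the matrix in boxes, for arbitrary subsets of the
primes. The invertible symmetric matrices with given row sums are counted by restricting the form to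
the complement of the vector of ones, or to a complement of a plane
(`Pool/Agent/Run7/h268/FN`, based on the starting library `Pool/Agent/V11291/FK`).
-/

set_option autoImplicit false

open Filter Topology

namespace Pool.Agent.Results.MP_4a9ea6_nt.FixedNumberQuarticTwists

open Pool.Agent.Results.MP_92892c_nt.TwoPartQuarticTwists (TwoPart)
open Pool.Agent.Results.MP_e23604_nt.ShaSumsOfTwoOddSquares (Trivial NonzeroL)

/-- `L(E_N, s)` is entire and not zero at `1`, `E_N(ℚ)` is finite and `Ш(E_N/ℚ)[2^∞] = 0` for the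
congruent number curve `E_N : y² = x³ - N² x` -/
def CongruentTrivial (N : ℕ) : Prop := Trivial N ∧ NonzeroL (-(N : ℤ) ^ 2) 0

/-- `m` is squarefree, and all its prime factors are `1` modulo `4` and in `S` -/
def InClass (S : Set ℕ) (m : ℕ) : Prop :=
  Squarefree m ∧ ∀ p : ℕ, p.Prime → p ∣ m → p % 4 = 1 ∧ p ∈ S

/-- the number of the prime factors of `m` which are `c` modulo `8` -/
noncomputable def number (c m : ℕ) : ℕ := Nat.card {p : ℕ // p.Prime ∧ p ∣ m ∧ p % 8 = c}

/-- `m` is in the class, `b` of its prime factors are `1` modulo `8` and `r` are `5` modulo `8` -/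
def Family (S : Set ℕ) (b r m : ℕ) : Prop := InClass S m ∧ number 1 m = b ∧ number 5 m = r

/-- at least a positive proportion of the primes up to `Y` is in `S` and `c` modulo `8`, for all large
`Y` -/
def Dense (S : Set ℕ) (c : ℕ) : Prop := ∃ (δ : ℝ) (Y₀ : ℕ), 0 < δ ∧ ∀ Y : ℕ, Y₀ ≤ Y →
  δ * (Y / Real.log Y) ≤ (Nat.card {p : ℕ // p ≤ Y ∧ p.Prime ∧ p ∈ S ∧ p % 8 = c} : ℝ)

/-- the number of the `m` with `1 ≤ m ≤ X` and `Q m` -/
noncomputable def count (Q : ℕ → Prop) (X : ℕ) : ℕ := Nat.card {m : ℕ // 1 ≤ m ∧ m ≤ X ∧ Q m}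

/-- `F` has the order of magnitude `X (log log X)^(n-1) / log X`, and exactly the proportion `a` of the
`m` in `F` has the property `G` -/
def Law (F G : ℕ → Prop) (n : ℕ) (a : ℝ) : Prop :=
  (∃ (c C : ℝ) (X₀ : ℕ), 0 < c ∧ 0 < C ∧ ∀ X : ℕ, X₀ ≤ X →
    c * (X * Real.log (Real.log X) ^ (n - 1) / Real.log X) ≤ (count F X : ℝ) ∧
    (count F X : ℝ) ≤ C * (X * Real.log (Real.log X) ^ (n - 1) / Real.log X)) ∧
  Tendsto (fun X : ℕ => (count (fun m => F m ∧ G m) X : ℝ) / (count F X : ℝ)) atTop (𝓝 a)

/-- `P n = ∏_{i < (n+1)/2} (1 - 2^{-(2i+1)})` -/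
noncomputable def P (n : ℕ) : ℝ :=
  ∏ i ∈ Finset.range ((n + 1) / 2), (1 - (1 / 2 : ℝ) ^ (2 * i + 1))

section proof

open Run7.h268.FN
open Pool.Agent.V11291.FK (PG Dn)
open Run7.h843.Desc (f2 Nsg)
open Run7.h238.Pairs (oddP)
open Run7.h843.Fin (Okn)
open Run7.h843.Cnt (Gd6)

theorem class_iff {S : Set ℕ} {m : ℕ} : InClass S m ↔ Squarefree m ∧ ∀ p ∈ m.primeFactors, AS S p := by
  constructor
  · rintro ⟨h1, h2⟩
    exact ⟨h1, fun p hp => ⟨Nat.prime_of_mem_primeFactors hp,
      h2 p (Nat.prime_of_mem_primeFactors hp) (Nat.dvd_of_mem_primeFactors hp)⟩⟩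
  · rintro ⟨h1, h2⟩
    exact ⟨h1, fun p hp hd => (h2 p (Nat.mem_primeFactors.2 ⟨hp, hd, h1.ne_zero⟩)).2⟩

theorem four {S : Set ℕ} {m : ℕ} (h : InClass S m) : ∀ p ∈ m.primeFactors, p % 4 = 1 :=
  fun p hp => ((class_iff.1 h).2 p hp).2.1

theorem odd_m {S : Set ℕ} {m : ℕ} (h : InClass S m) : m % 2 = 1 := by
  by_contra hm
  have h2 : 2 ∣ m := by omega
  have := four h 2 (Nat.mem_primeFactors.2 ⟨Nat.prime_two, h2, h.1.ne_zero⟩)
  omega

theorem sq_two {S : Set ℕ} {m : ℕ} (h : InClass S m) : Squarefree (2 * m) := by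
  refine (Nat.squarefree_mul ?_).2 ⟨Nat.prime_two.squarefree, h.1⟩
  rw [Nat.coprime_two_left, Nat.odd_iff]
  exact odd_m h

theorem odd_pf {m : ℕ} (h : Squarefree m) : oddP m = m.primeFactors := by
  unfold Run7.h238.Pairs.oddP
  refine Finset.filter_true_of_mem fun p hp => ?_
  have h1 := h.natFactorization_le_one p
  have h2 := (Nat.prime_of_mem_primeFactors hp).factorization_pos_of_dvd h.ne_zero
    (Nat.dvd_of_mem_primeFactors hp)
  have h3 : m.factorization p = 1 := by omega
  rw [h3]
  exact odd_one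

theorem nsg_iff (m : ℕ) : Nsg m ↔ GdM tr f2 m.primeFactors := by
  have e : ∀ x : ℕ → ZMod 2, cuM tr x = x := by
    intro x
    funext q
    unfold cuM
    exact if_pos trivial
  unfold Run7.h843.Desc.Nsg GdM SolM
  simp only [e]
  exact ⟨fun h x hx p hp _ => h x (fun q hq => hx q hq trivial) p hp,
    fun h x hx p hp => h x (fun q hq _ => hx q hq) p hp trivial⟩

theorem two_iff {S : Set ℕ} {m : ℕ} (h : InClass S m) :
    TwoPart (2 * m) ↔ GdM tr f2 m.primeFactors := by
  rw [← nsg_iff]
  exact (Pool.Agent.Results.MP_92892c_nt.TwoPartQuarticTwists.core h.1 (four h) (odd_m h)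
    (sq_two h)).2.1

theorem cong_iff {S : Set ℕ} {m : ℕ} (h : InClass S m) :
    CongruentTrivial (2 * m) ↔ GdM tr f2 m.primeFactors := by
  have hok : Okn m := ⟨h.1.ne_zero, fun p hp => four h p (by rwa [odd_pf h.1] at hp)⟩
  have h1 := Run7.h843.Conv.iffE hok
    (W := Pool.Agent.Results.MP_e23604_nt.ShaSumsOfTwoOddSquares.E (2 * m)) (by
      unfold Pool.Agent.Results.MP_e23604_nt.ShaSumsOfTwoOddSquares.E
      push_cast
      rfl)
  have h2 : Gd6 (oddP m) ↔ Nsg m := by
    rw [odd_pf h.1]
    exact Iff.rfl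
  rw [← nsg_iff, ← h2, ← h1]
  constructor
  · exact fun h3 => ⟨h3.1.finite, h3.1.sha⟩
  · intro h3
    refine ⟨⟨h3.1, h3.2⟩, ?_⟩
    have h4 : Nsg m := h2.1 (h1.1 h3)
    obtain ⟨F, hF, h5, h6⟩ := Run7.h26.CN.Lfun m h.1 (four h) h4
    have e : -((2 * m : ℕ) : ℤ) ^ 2 = -4 * ((m : ℕ) : ℤ) ^ 2 := by
      push_cast
      ring
    rw [e]
    refine ⟨F, hF, h5, fun s hs => ?_⟩
    refine (congrArg (fun g => HasProd g (F s)) (funext fun p => ?_)).mp (h6.2 s hs)
    congr

theorem f2_iff {p : ℕ} (h : p % 4 = 1) : (f2 p = 0 ↔ p % 8 = 1) ∧ (f2 p = 1 ↔ p % 8 = 5) := by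
  unfold Run7.h843.Desc.f2
  by_cases h5 : p % 8 = 5
  · rw [if_pos h5]
    exact ⟨⟨fun h1 => absurd h1 one_ne_zero, fun h1 => by omega⟩, ⟨fun _ => h5, fun _ => rfl⟩⟩
  · rw [if_neg h5]
    exact ⟨⟨fun _ => by omega, fun _ => rfl⟩, ⟨fun h1 => absurd h1 zero_ne_one,
      fun h1 => absurd h1 h5⟩⟩

theorem fam_iff {S : Set ℕ} {b r m : ℕ} : Family S b r m ↔ FamF S f2 b r m := by
  unfold Family FamF number
  rw [class_iff, and_assoc]
  refine and_congr_right fun h1 => and_congr_right fun h2 => ?_
  rw [card_pf_congr h1.ne_zero (P := fun p => f2 p = 0) (Q := fun p => p % 8 = 1)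
      fun p hp => (f2_iff (h2 p hp).2.1).1,
    card_pf_congr h1.ne_zero (P := fun p => f2 p = 1) (Q := fun p => p % 8 = 5)
      fun p hp => (f2_iff (h2 p hp).2.1).2]

theorem law_all (S : Set ℕ) (b r : ℕ) (hbr : 1 ≤ b + r) (hb : 0 < b → Dense S 1)
    (hr : 0 < r → Dense S 5) :
    Law (Family S b r) (fun m => TwoPart (2 * m) ∧ CongruentTrivial (2 * m)) (b + r)
      (if r = 0 then 0 else if Odd r then P (b + r - 1) else P (b + r - 2)) := by
  have h := lawF S f2 b r hbr (fun h => by
    obtain ⟨δ, Y₀, hδ, h⟩ := hb h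
    refine dn_of hδ h fun p hp => ⟨⟨hp.1, ?_, hp.2.1⟩, ?_⟩
    · have := hp.2.2
      omega
    · exact (f2_iff (by have := hp.2.2; omega)).1.2 hp.2.2) (fun h => by
    obtain ⟨δ, Y₀, hδ, h⟩ := hr h
    refine dn_of hδ h fun p hp => ⟨⟨hp.1, ?_, hp.2.1⟩, ?_⟩
    · have := hp.2.2
      omega
    · exact (f2_iff (by have := hp.2.2; omega)).2.2 hp.2.2)
  have e : Family S b r = FamF S f2 b r := funext fun m => propext fam_iff
  have e2 : (fun m => Family S b r m ∧ (TwoPart (2 * m) ∧ CongruentTrivial (2 * m))) =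
      fun m => FamF S f2 b r m ∧ GdM tr f2 m.primeFactors := by
    funext m
    rw [← e]
    refine propext (and_congr_right fun hm => ?_)
    rw [two_iff hm.1, cong_iff hm.1, and_self]
  unfold Law
  rw [e2, e]
  exact h

theorem dense_class {q c : ℕ} (hq : Nat.Coprime q 8) (hc : Nat.Coprime c q) (r : ℕ)
    (hr : Nat.Coprime r 8) (hr8 : r < 8) : Dense {p | p % q = c % q} r := by
  have hq0 : 1 ≤ q := by
    rcases Nat.eq_zero_or_pos q with h | h
    · subst h
      exact absurd hq (by decide)
    · exact h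
  exact card_of_dn (dn_class (by norm_num) hq hq0 hc hr hr8)

end proof

/-- **The 2-part of the formula for the quartic twists `y² = x³ + N x`, and the congruent number curves,
for the numbers `N` with a fixed number of prime factors from a set of positive density.** -/
theorem result :
    (∀ (S : Set ℕ) (m : ℕ), InClass S m → (TwoPart (2 * m) ↔ CongruentTrivial (2 * m))) ∧
    (∀ (S : Set ℕ) (b r : ℕ), 1 ≤ b + r → (0 < b → Dense S 1) → (0 < r → Dense S 5) →
      Law (Family S b r) (fun m => TwoPart (2 * m) ∧ CongruentTrivial (2 * m)) (b + r)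
        (if r = 0 then 0 else if Odd r then P (b + r - 1) else P (b + r - 2))) ∧
    (∀ q c : ℕ, Nat.Coprime q 8 → Nat.Coprime c q →
      Dense {p | p % q = c % q} 1 ∧ Dense {p | p % q = c % q} 5) :=
  ⟨fun _ _ h => (two_iff h).trans (cong_iff h).symm, law_all, fun _ _ hq hc =>
    ⟨dense_class hq hc 1 (by norm_num) (by norm_num), dense_class hq hc 5 (by norm_num)
      (by norm_num)⟩⟩

end Pool.Agent.Results.MP_4a9ea6_nt.FixedNumberQuarticTwists
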