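import Mathlib
import Pool.Agent.Run7.h460.CT.Den3
import Pool.Agent.Run7.h460.CT.Inf3

/-!
# The `3`-part of the leading-term formula over `ℚ`: the cubic twists `y² + 3 m y = x³`

`m` is cube-free and all its prime factors are `1` modulo `3`. `E : y² + 3 m y = x³` is
`3`-isogenous to `x³ + y³ = 3 m`; here `3` divides the parameter exactly once and no prime `2` modulo
`3` divides it (the starting results on cubic twists treat parameters prime to `3`, with exactly one
prime factor `2` modulo `3`). Then `L(E, s)` is entire, `u = L(E, 1) |E(ℚ)_tors|² / (Ω ∏ c_p)` is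
integral at `3`, and it is a unit at `3` if and only if `E(ℚ)` is finite and `Ш(E/ℚ)[3^∞] = 0`, if
and only if `3 m` does not split (criterion with cubic residues).

For the two-parameter family `3 (a² + a b + b²)`, `a, b` coprime, the norm prime to `3`: this holds
for exactly the proportion `∏_{i ≥ 1} (1 - 3^{-i}) = 0.5601...` of the pairs, i.e. exactly three
quarters of this number of all coprime pairs.

The analytic part for `D = 3 m` is due to helper135 (`Run7/h135`), the descent to helper555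
(`Run7/h555/CT`), the count over the pairs to helper238 (`Run7/h238/C`), all on top of the project
CT/CX of the starting repository; here: the minimal equation, the Tamagawa numbers (also at `3`), the
torsion, the assembly.
-/

set_option autoImplicit false

open scoped Classical

namespace Pool.Agent.Results.MP_4a9ea6_nt.ThreePartNormForms

open Pool.Agent.Y703.CT
open Pool.Agent.W97.MT (IsGloballyMinimal)
open Pool.Agent.Y700 (Omega)
open Pool.Agent.Run7.h135.Rank9 (Cl3)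
open Run7.h460.CT (AllP ClassP GoodP)

theorem result :
    (∀ m : ℕ, Cl3 m → IsGloballyMinimal (WD ((3 * m : ℕ) : ℤ)) ∧
      ∃ f : ℂ → ℂ, IsL (WD ((3 * m : ℕ) : ℤ)) f ∧ ∃ u : ℂ,
        f 1 = u * (((Omega (WD ((3 * m : ℕ) : ℤ)) : ℝ) : ℂ) *
          (tamProd (WD ((3 * m : ℕ) : ℤ)) : ℂ) / (tors (3 * m) : ℂ) ^ 2) ∧
        ThreeInt u ∧ (ThreeUnit u ↔ Triv3 (3 * m)) ∧ (Triv3 (3 * m) ↔ NoSplit (3 * m))) ∧
    (∀ s : ℕ, 1 ≤ s → {m : ℕ | Cl3 m ∧ Triv3 (3 * m) ∧ m.primeFactors.card = s}.Infinite) ∧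
    (∀ (X : ℕ), ∀ v ∈ ClassP X, ∃ m t : ℕ, Cl3 m ∧
      v.1 ^ 2 + v.1 * v.2 + v.2 ^ 2 = (m : ℤ) * (t : ℤ) ^ 3) ∧
    Filter.Tendsto (fun X : ℕ => ((GoodP X).ncard : ℝ) / ((ClassP X).ncard : ℝ)) Filter.atTop
      (nhds (∏' i : ℕ, (1 - (1 / 3 : ℝ) ^ (i + 1)))) ∧
    Filter.Tendsto (fun X : ℕ => ((GoodP X).ncard : ℝ) / ((AllP X).ncard : ℝ)) Filter.atTop
      (nhds (3 / 4 * ∏' i : ℕ, (1 - (1 / 3 : ℝ) ^ (i + 1)))) ∧
    (0.56 : ℝ) < ∏' i : ℕ, (1 - (1 / 3 : ℝ) ^ (i + 1)) := by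
  refine ⟨fun _ hC => Run7.h460.CT.fin3 hC, ?_, ?_, Run7.h460.CT.den_class,
    Run7.h460.CT.den_all, Pool.Agent.Y461.CX.t_C3.2.2.2⟩
  · intro s hs
    refine (Run7.h460.CT.infinite3 s hs).mono ?_
    rintro m ⟨h1, h2, h3⟩
    exact ⟨h1, (Run7.h555.CT.triv3_iff h1).2 h2, h3⟩
  · intro X v hv
    rw [Run7.h460.CT.classP_eq] at hv
    have h1 := hv
    unfold Run7.h238.C.EP.PX at h1
    rw [Finset.mem_coe, Finset.mem_filter] at h1
    obtain ⟨m, t, hm, -, hn⟩ := Run7.h460.CT.cl3_of h1.2.1 h1.2.2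
    refine ⟨m, t, hm, ?_⟩
    rw [← Run7.h238.C.EP.en_int, hn]
    push_cast
    ring

end Pool.Agent.Results.MP_4a9ea6_nt.ThreePartNormForms
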